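import Pool.Agent.TH870.CWb
import Pool.Agent.Results.MP_725e58_gt.AsymmetryBound

/-!
# Bodies of constant width: a lower bound for the outer measure of symmetry in every dimension

A body of constant width `w` in dimension `d` lies in a ball of radius `w J`, `J = sqrt(d / (2(d+1)))`
(Jung), and contains the concentric ball of radius `w (1 - J)`; hence its asymmetry about the centre
is at most `α = J / (1 - J)`. The bound for reflection bodies in terms of the asymmetry
(`MP_725e58_gt.AsymmetryBound`) gives the estimate.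
-/

set_option autoImplicit false

open MeasureTheory Set
open scoped Pointwise RealInnerProductSpace ENNReal

namespace Pool.Agent.Results.MP_447e26_gt.TauLowerBound

open Pool.Agent.TH870.CW (asym jr jr_lt half_le_jr)
open Pool.Agent.Results.MP_725e58_gt.AsymmetryBound (reflectionBody AsymmetryAt bound even_sum odd_sum)

/-- centrally symmetric: `B = 2c - B` for some point `c` -/
def CentrallySymmetric {d : ℕ} (B : Set (EuclideanSpace ℝ (Fin d))) : Prop :=
  ∃ c : EuclideanSpace ℝ (Fin d), B = (fun y => (2 : ℝ) • c - y) '' B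

/-- `τ(C) = vol C / inf {vol B : B ⊇ C convex, centrally symmetric}` -/
noncomputable def tau {d : ℕ} (C : Set (EuclideanSpace ℝ (Fin d))) : ℝ≥0∞ :=
  volume C / ⨅ B : {B : Set (EuclideanSpace ℝ (Fin d)) // C ⊆ B ∧ Convex ℝ B ∧ CentrallySymmetric B},
    volume (B : Set (EuclideanSpace ℝ (Fin d)))

/-- constant width `w` -/
def HasConstantWidth {d : ℕ} (C : Set (EuclideanSpace ℝ (Fin d))) (w : ℝ) : Prop :=
  ∀ u : EuclideanSpace ℝ (Fin d), ‖u‖ = 1 →
    sSup ((fun x => ⟪u, x⟫) '' C) - sInf ((fun x => ⟪u, x⟫) '' C) = w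

/-- Jung's constant `sqrt(d / (2(d+1)))` -/
noncomputable def jung (d : ℕ) : ℝ := Real.sqrt (d / (2 * (d + 1)))

lemma refl_sym {d : ℕ} (c : EuclideanSpace ℝ (Fin d)) (K : Set (EuclideanSpace ℝ (Fin d))) :
    CentrallySymmetric (reflectionBody c K) := by
  refine ⟨c, ?_⟩
  set f : EuclideanSpace ℝ (Fin d) →ᵃ[ℝ] EuclideanSpace ℝ (Fin d) :=
    (AffineEquiv.pointReflection ℝ c : EuclideanSpace ℝ (Fin d) ≃ᵃ[ℝ] EuclideanSpace ℝ (Fin d)).toAffineMap
    with hf
  have hfe : ∀ y, f y = (2 : ℝ) • c - y := by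
    intro y
    have : f y = (c - y) + c := rfl
    rw [this, two_smul]; abel
  have hff : (fun y => (2 : ℝ) • c - y) = f := by
    funext y
    exact (hfe y).symm
  unfold reflectionBody
  rw [hff, AffineMap.image_convexHull, image_union, ← image_comp]
  have h1 : (⇑f ∘ ⇑f) '' K = K := by
    have : (⇑f ∘ ⇑f) = id := by
      funext y
      simp only [Function.comp, hfe, id]
      abel
    rw [this, image_id]
  rw [h1, union_comm]

lemma core {d : ℕ} (hd : 1 ≤ d) {C : Set (EuclideanSpace ℝ (Fin d))} (hC : IsCompact C)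
    (hc : Convex ℝ C) (hne : C.Nonempty) {w : ℝ} (hw : 0 < w) (h : HasConstantWidth C w) {G : ℝ}
    (hG : 0 < G) (hFG : 2 + (jung d / (1 - jung d) - 1) * ∑ i ∈ Finset.range (d + 1),
      min ((jung d / (1 - jung d)) ^ i) ((jung d / (1 - jung d)) ^ (d - i)) ≤
        (jung d / (1 - jung d) + 1) * G) :
    ENNReal.ofReal G⁻¹ ≤ tau C := by
  obtain ⟨hi, c, hcC, hA⟩ := asym hd hC hc hne hw h
  have hα : 1 ≤ jung d / (1 - jung d) := by
    have h1 := jr_lt d
    have h2 := half_le_jr hd
    show 1 ≤ jr d / (1 - jr d)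
    rw [le_div_iff₀ (by linarith)]
    linarith
  have hA' : AsymmetryAt c C (jung d / (1 - jung d)) := hA
  have hb := bound hC hc hi hcC hα hA'
  set α := jung d / (1 - jung d) with hαd
  have hα1 : 0 < α + 1 := by linarith
  have hVf : volume C ≠ ⊤ := hC.measure_lt_top.ne
  have hV0 : volume C ≠ 0 := by
    have := (isOpen_interior.measure_pos volume hi).trans_le (measure_mono interior_subset)
    exact this.ne'
  have hVr : 0 ≤ (volume C).toReal := ENNReal.toReal_nonneg
  have hRf : volume (reflectionBody c C) ≠ ⊤ := by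
    have : Bornology.IsBounded (reflectionBody c C) :=
      isBounded_convexHull.2 (hC.union (hC.image (by fun_prop))).isBounded
    exact this.measure_lt_top.ne
  have hs : ∑ i ∈ Finset.range (d + 1), min (d.choose i : ℝ) (min (α ^ i) (α ^ (d - i))) ≤
      ∑ i ∈ Finset.range (d + 1), min (α ^ i) (α ^ (d - i)) :=
    Finset.sum_le_sum fun i _ => min_le_right _ _
  have hle : (volume (reflectionBody c C)).toReal ≤ G * (volume C).toReal := by
    have h3 := mul_le_mul_of_nonneg_left hs (by linarith : (0:ℝ) ≤ α - 1)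
    have h7 := hb.trans (mul_le_mul_of_nonneg_right (by linarith :
      2 + (α - 1) * ∑ i ∈ Finset.range (d + 1), min (d.choose i : ℝ) (min (α ^ i) (α ^ (d - i))) ≤
        (α + 1) * G) hVr)
    rw [mul_assoc] at h7
    exact le_of_mul_le_mul_left h7 hα1
  have h1 : volume (reflectionBody c C) ≤ ENNReal.ofReal G * volume C := by
    rw [← ENNReal.toReal_le_toReal hRf (ENNReal.mul_ne_top ENNReal.ofReal_ne_top hVf),
      ENNReal.toReal_mul, ENNReal.toReal_ofReal hG.le]
    exact hle
  have h2 : (⨅ B : {B : Set (EuclideanSpace ℝ (Fin d)) // C ⊆ B ∧ Convex ℝ B ∧ CentrallySymmetric B},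
      volume (B : Set (EuclideanSpace ℝ (Fin d)))) ≤ ENNReal.ofReal G * volume C := by
    refine (iInf_le _ ⟨reflectionBody c C, ?_, convex_convexHull ℝ _, refl_sym c C⟩).trans h1
    exact subset_union_left.trans (subset_convexHull ℝ _)
  unfold tau
  refine le_trans ?_ (ENNReal.div_le_div_left h2 _)
  rw [ENNReal.le_div_iff_mul_le (Or.inl ?_) (Or.inl ?_)]
  · rw [← mul_assoc, ← ENNReal.ofReal_mul (by positivity), inv_mul_cancel₀ hG.ne', ENNReal.ofReal_one,
      one_mul]
  · exact mul_ne_zero (by simpa using hG) hV0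
  · exact ENNReal.mul_ne_top ENNReal.ofReal_ne_top hVf

/-- **The outer measure of symmetry of bodies of constant width**, in every dimension. -/
theorem result (d : ℕ) (hd : 1 ≤ d) (C : Set (EuclideanSpace ℝ (Fin d))) (hC : IsCompact C)
    (hc : Convex ℝ C) (hne : C.Nonempty) (w : ℝ) (hw : 0 < w) (h : HasConstantWidth C w) :
    (∀ k : ℕ, d = 2 * k → ENNReal.ofReal (((1 - jung d) / jung d) ^ k) ≤ tau C) ∧
    (∀ k : ℕ, d = 2 * k + 1 → ENNReal.ofReal ((1 - jung d) ^ k / (2 * jung d ^ (k + 1))) ≤ tau C) := by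
  have h1 : jung d < 1 := jr_lt d
  have h2 : 1 / 2 ≤ jung d := half_le_jr hd
  have hα : 1 ≤ jung d / (1 - jung d) := by
    rw [le_div_iff₀ (by linarith)]
    linarith
  have hj : 0 < jung d := by linarith
  have hj' : 0 < 1 - jung d := by linarith
  constructor
  · intro k hk
    have h3 := even_sum hα k
    rw [← hk] at h3
    have h4 := core hd hC hc hne hw h (G := (jung d / (1 - jung d)) ^ k) (by positivity) h3.le
    rwa [← inv_pow, inv_div] at h4
  · intro k hk
    have h3 := odd_sum hα k
    rw [← hk] at h3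
    have h4 := core hd hC hc hne hw h
      (G := 2 * (jung d / (1 - jung d)) ^ (k + 1) / (jung d / (1 - jung d) + 1)) (by positivity)
      (by
        rw [h3, mul_div_cancel₀]
        positivity)
    have e : (2 * (jung d / (1 - jung d)) ^ (k + 1) / (jung d / (1 - jung d) + 1))⁻¹ =
        (1 - jung d) ^ k / (2 * jung d ^ (k + 1)) := by
      have e1 : jung d / (1 - jung d) + 1 = 1 / (1 - jung d) := by field_simp; ring
      rw [e1, div_pow, pow_succ (1 - jung d)]
      field_simp
    rwa [e] at h4

end Pool.Agent.Results.MP_447e26_gt.TauLowerBound
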